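import Pool.Agent.W76.MO.Stmts
import Pool.Agent.H154R3.Task469B

/-!
# MO-BTR: upper bound for rough numbers in intervals
-/

set_option autoImplicit false

namespace Pool.Agent.W761.MO

open Finset Filter Topology Pool.Agent.W76.MO
open scoped Classical

theorem btr : T_BTR := by
  intro γ σ hγ hσ
  obtain ⟨s, hs1, hsκ, z₀, hz₀, hF⟩ := Pool.Agent.H154R3.Fund.fundLemma 1 one_pos
  have hs0 : (0 : ℝ) < s := by exact_mod_cast hs1
  set c : ℝ := min γ (σ / s) with hc
  have hc0 : 0 < c := lt_min hγ (by positivity)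
  have hlog2 : 0 < Real.log 2 := Real.log_pos one_lt_two
  refine ⟨8 / (c * Real.log 2), by positivity, ?_⟩
  obtain ⟨i₀, hi₀⟩ := exists_nat_gt (max (2 / c) (z₀ / (c * Real.log 2)))
  refine ⟨max i₀ 1, le_max_right _ _, fun i hi a L hL => ?_⟩
  have hi1 : 1 ≤ i := (le_max_right _ _).trans hi
  have hiR : (i₀ : ℝ) ≤ i := by exact_mod_cast (le_max_left _ _).trans hi
  have hi0 : (0 : ℝ) < i := by exact_mod_cast hi1
  have h2c : 2 ≤ c * i := by
    have h1 : 2 / c < i := (le_max_left _ _).trans_lt (hi₀.trans_le hiR)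
    rw [div_lt_iff₀ hc0] at h1
    linarith
  have hz0c : (z₀ : ℝ) ≤ c * i * Real.log 2 := by
    have h1 : z₀ / (c * Real.log 2) < i := (le_max_right _ _).trans_lt (hi₀.trans_le hiR)
    rw [div_lt_iff₀ (by positivity)] at h1
    nlinarith
  set x : ℝ := (2 : ℝ) ^ (c * i) with hx
  have hxexp : x = Real.exp (c * i * Real.log 2) := by
    rw [hx, Real.rpow_def_of_pos two_pos]
    congr 1
    ring
  have hx0 : 0 < x := by positivity
  have hx1 : (z₀ : ℝ) + 1 ≤ x := by
    rw [hxexp]
    have := Real.add_one_le_exp (c * i * Real.log 2)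
    linarith
  set z : ℕ := ⌊x⌋₊ with hz
  have hzx : (z : ℝ) ≤ x := Nat.floor_le hx0.le
  have hxz : x < z + 1 := Nat.lt_floor_add_one x
  have hz₀z : z₀ ≤ z := by
    rw [hz]
    apply Nat.le_floor
    linarith
  have hz2 : (2 : ℝ) ≤ z := by exact_mod_cast hz₀.trans hz₀z
  obtain ⟨V, hV0, hVz, hV⟩ := hF z hz₀z
  -- the size of `z ^ s`
  have hzs : z ^ s ≤ L := by
    have h1 : ((z ^ s : ℕ) : ℝ) ≤ L := by
      push_cast
      calc (z : ℝ) ^ s ≤ x ^ s := pow_le_pow_left₀ (by positivity) hzx s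
        _ = (2 : ℝ) ^ (c * i * s) := by
            rw [hx, ← Real.rpow_natCast, ← Real.rpow_mul (by norm_num)]
        _ ≤ (2 : ℝ) ^ (σ * i) := by
            apply Real.rpow_le_rpow_of_exponent_le one_le_two
            have h2 : c ≤ σ / s := min_le_right _ _
            rw [le_div_iff₀ hs0] at h2
            nlinarith
        _ ≤ L := hL
    exact_mod_cast h1
  have hcard : (((Ioc a (a + L)).filter (fun n => Rough ((2 : ℝ) ^ (γ * i)) n)).card : ℝ) ≤
      (((Ioc a (a + L)).filter (fun n => ∀ p : ℕ, p.Prime → p < z → ¬ p ∣ n)).card : ℝ) := by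
    norm_cast
    apply Finset.card_le_card
    intro n hn
    rw [Finset.mem_filter] at hn ⊢
    refine ⟨hn.1, fun p hp hpz hpn => ?_⟩
    have h1 := hn.2 p hp hpn
    have h2 : x ≤ (2 : ℝ) ^ (γ * i) := by
      rw [hx]
      apply Real.rpow_le_rpow_of_exponent_le one_le_two
      exact mul_le_mul_of_nonneg_right (min_le_left _ _) hi0.le
    have h3 : (p : ℝ) < z := by exact_mod_cast hpz
    linarith
  have hFL := hV a L hzs
  have h4 := (abs_le.mp hFL).2
  have hL0 : (0 : ℝ) ≤ L := Nat.cast_nonneg L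
  have h5 : 1 / (s : ℝ) ^ 8 ≤ 1 := by
    rw [div_le_one (by positivity)]
    exact one_le_pow₀ (by exact_mod_cast hs1)
  have h6 : 1 / (s : ℝ) ^ 8 * V * L ≤ V * L := by
    have h7 : 0 ≤ V * L := by positivity
    nlinarith
  have hlogz : c * i * Real.log 2 / 2 ≤ Real.log z := by
    have h7 : x / 2 ≤ z := by linarith
    have h8 : Real.log (x / 2) ≤ Real.log z := Real.log_le_log (by positivity) h7
    rw [Real.log_div hx0.ne' two_ne_zero, hxexp, Real.log_exp] at h8
    nlinarith
  have hlogz0 : 0 < Real.log z := Real.log_pos (by linarith)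
  have h9 : V ≤ 4 / (c * i * Real.log 2) := by
    refine hVz.trans ?_
    rw [div_le_div_iff₀ hlogz0 (by positivity)]
    linarith
  calc (((Ioc a (a + L)).filter (fun n => Rough ((2 : ℝ) ^ (γ * i)) n)).card : ℝ)
      ≤ V * L + V * L := by linarith
    _ = 2 * (V * L) := by ring
    _ ≤ 2 * (4 / (c * i * Real.log 2) * L) := by
        have := mul_le_mul_of_nonneg_right h9 hL0
        linarith
    _ = 8 / (c * Real.log 2) * L / i := by
        field_simp
        ring

end Pool.Agent.W761.MO
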